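import Pool.Agent.K1H55.SK.Stm
import Pool.Agent.H712R2.MA.S

/-!
# SK-B2: the limit `m → ∞`
-/

set_option autoImplicit false

noncomputable section

open MeasureTheory Filter Topology Set
open scoped BigOperators Matrix ENNReal

namespace Pool.Agent.K1H55.SK

open H712MA

namespace B2

variable {κ : Type} {n : ℕ}

/-- the matrix of a basis -/
def Am (l : κ → Fin n → ℝ) (f : Fin n → κ) : Matrix (Fin n) (Fin n) ℝ :=
  Matrix.of fun i j => l (f i) j

/-- the point with the coordinates `p` -/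
def Zf (l : κ → Fin n → ℝ) (f : Fin n → κ) (p : Fin n → ℂ) : E2 n :=
  ((Am l f)⁻¹ *ᵥ (fun i => (p i).re), (Am l f)⁻¹ *ᵥ (fun i => (p i).im))

theorem cont_Zf (l : κ → Fin n → ℝ) (f : Fin n → κ) : Continuous (Zf l f) := by
  unfold Zf
  refine Continuous.prodMk ?_ ?_
  · exact Continuous.matrix_mulVec continuous_const
      (continuous_pi fun i => Complex.continuous_re.comp (continuous_apply i))
  · exact Continuous.matrix_mulVec continuous_const
      (continuous_pi fun i => Complex.continuous_im.comp (continuous_apply i))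

theorem cont_pk (v : Fin n → ℝ) : Continuous (pk v) := by
  have h : pk v = fun z : E2 n => ((v ⬝ᵥ z.1 : ℝ) : ℂ) + ((v ⬝ᵥ z.2 : ℝ) : ℂ) * Complex.I := by
    funext z
    apply Complex.ext <;> simp [pk]
  rw [h]
  have h1 : Continuous fun z : E2 n => v ⬝ᵥ z.1 := by
    unfold dotProduct
    fun_prop
  have h2 : Continuous fun z : E2 n => v ⬝ᵥ z.2 := by
    unfold dotProduct
    fun_prop
  exact (Complex.continuous_ofReal.comp h1).add
    ((Complex.continuous_ofReal.comp h2).mul continuous_const)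

/-- the admissible coordinates -/
def CP (l : κ → Fin n → ℝ) (f : Fin n → κ) : Set (Fin n → ℂ) :=
  {p | ∀ k, pk (l k) (Zf l f p) ∈ CL}

theorem closed_CL (hA : S_LA) : IsClosed CL := by
  have h1 : IsClosed {p : ℂ | |p.re| ≤ 1} :=
    isClosed_le (continuous_abs.comp Complex.continuous_re) continuous_const
  have h2 : IsClosed {p : ℂ | |p.im| ≤ bb p.re} :=
    isClosed_le (continuous_abs.comp Complex.continuous_im)
      (hA.2.2.2.2.2.comp Complex.continuous_re)
  exact h1.inter h2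

theorem closed_CP (hA : S_LA) (l : κ → Fin n → ℝ) (f : Fin n → κ) : IsClosed (CP l f) := by
  have h : CP l f = ⋂ k, {p | pk (l k) (Zf l f p) ∈ CL} := by
    ext p
    simp [CP]
  rw [h]
  exact isClosed_iInter fun k => (closed_CL hA).preimage ((cont_pk (l k)).comp (cont_Zf l f))

theorem eq_Zf {l : κ → Fin n → ℝ} {f : Fin n → κ} (hf : dt l f ≠ 0) {p : Fin n → ℂ} {z : E2 n}
    (h : ∀ i, pk (l (f i)) z = p i) : z = Zf l f p := by
  have hu : IsUnit (Am l f).det := isUnit_iff_ne_zero.2 hf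
  have h1 : Am l f *ᵥ z.1 = fun i => (p i).re := by
    funext i
    rw [← h i]
    rfl
  have h2 : Am l f *ᵥ z.2 = fun i => (p i).im := by
    funext i
    rw [← h i]
    rfl
  unfold Zf
  rw [← h1, ← h2, Matrix.mulVec_mulVec, Matrix.mulVec_mulVec, Matrix.nonsing_inv_mul _ hu,
    Matrix.one_mulVec, Matrix.one_mulVec]

theorem pk_Zf {l : κ → Fin n → ℝ} {f : Fin n → κ} (hf : dt l f ≠ 0) (p : Fin n → ℂ) (i : Fin n) :
    pk (l (f i)) (Zf l f p) = p i := by
  have hu : IsUnit (Am l f).det := isUnit_iff_ne_zero.2 hf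
  have h1 : Am l f *ᵥ (Zf l f p).1 = fun i => (p i).re := by
    unfold Zf
    rw [Matrix.mulVec_mulVec, Matrix.mul_nonsing_inv _ hu, Matrix.one_mulVec]
  have h2 : Am l f *ᵥ (Zf l f p).2 = fun i => (p i).im := by
    unfold Zf
    rw [Matrix.mulVec_mulVec, Matrix.mul_nonsing_inv _ hu, Matrix.one_mulVec]
  apply Complex.ext
  · exact congrFun h1 i
  · exact congrFun h2 i

/-- `h` on the closed disc, zero outside -/
def cl (z : ℂ) : ℂ := (Metric.closedBall (0 : ℂ) 1).indicator hh z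

theorem meas_cl (hA : S_LA) : Measurable cl := by
  classical
  have h : cl = (Metric.closedBall (0 : ℂ) 1).piecewise hh (fun _ => 0) := by
    funext z
    rfl
  rw [h]
  exact hA.1.measurable_piecewise continuousOn_const Metric.isClosed_closedBall.measurableSet

/-- the argument -/
def ag (m : ℕ) (s θ : ℝ) : ℂ :=
  ((s ^ (1 / (2 * (m : ℝ))) : ℝ) : ℂ) * Complex.exp ((θ : ℂ) * Complex.I)

theorem norm_ag {m : ℕ} {s θ : ℝ} (h0 : 0 < s) (h1 : s < 1) : ‖ag m s θ‖ ≤ 1 := by
  unfold ag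
  rw [norm_mul, Complex.norm_exp_ofReal_mul_I, mul_one, Complex.norm_real, Real.norm_eq_abs,
    abs_of_nonneg (Real.rpow_nonneg h0.le _)]
  exact Real.rpow_le_one h0.le h1.le (by positivity)

theorem cl_ag {m : ℕ} {s θ : ℝ} (h0 : 0 < s) (h1 : s < 1) : cl (ag m s θ) = PT m s θ := by
  unfold cl PT
  rw [indicator_of_mem]
  · rfl
  · rw [mem_closedBall_zero_iff]
    exact norm_ag h0 h1

theorem meas_ag (m : ℕ) : Measurable fun p : ℝ × ℝ => ag m p.1 p.2 := by
  unfold ag
  fun_prop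

theorem lim_PT (hA : S_LA) {s θ : ℝ} (h0 : 0 < s) (h1 : s < 1) :
    Tendsto (fun m => PT m s θ) atTop (𝓝 (bp θ)) := by
  have hw : ContinuousWithinAt hh (Metric.closedBall 0 1) (Complex.exp ((θ : ℂ) * Complex.I)) := by
    apply hA.1
    rw [mem_closedBall_zero_iff, Complex.norm_exp_ofReal_mul_I]
  have h2 : Tendsto (fun m : ℕ => ag m s θ) atTop (𝓝 (Complex.exp ((θ : ℂ) * Complex.I))) := by
    have h3 : Tendsto (fun m : ℕ => 1 / (2 * (m : ℝ))) atTop (𝓝 0) := by
      refine Tendsto.div_atTop tendsto_const_nhds ?_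
      exact tendsto_natCast_atTop_atTop.const_mul_atTop (by norm_num)
    have h4 : Tendsto (fun m : ℕ => s ^ (1 / (2 * (m : ℝ)))) atTop (𝓝 1) := by
      have h5 := ((Real.continuousAt_const_rpow (a := s) (b := 0) h0.ne').tendsto).comp h3
      rwa [Real.rpow_zero] at h5
    have h5 := ((Complex.continuous_ofReal.tendsto 1).comp h4).mul_const
      (Complex.exp ((θ : ℂ) * Complex.I))
    rwa [Complex.ofReal_one, one_mul] at h5
  have h3 : Tendsto (fun m : ℕ => ag m s θ) atTop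
      (𝓝[Metric.closedBall 0 1] (Complex.exp ((θ : ℂ) * Complex.I))) := by
    refine tendsto_nhdsWithin_iff.2 ⟨h2, Eventually.of_forall fun m => ?_⟩
    rw [mem_closedBall_zero_iff]
    exact norm_ag h0 h1
  exact hw.tendsto.comp h3

theorem SX_lt {s : Fin n → ℝ} (hs : s ∈ SX n) (i : Fin n) : 0 < s i ∧ s i < 1 := by
  refine ⟨hs.1 i, lt_of_le_of_lt ?_ hs.2⟩
  exact Finset.single_le_sum (fun j _ => (hs.1 j).le) (Finset.mem_univ i)

theorem meas_SX (n : ℕ) : MeasurableSet (SX n) := by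
  have h1 : MeasurableSet {s : Fin n → ℝ | ∀ i, 0 < s i} := by
    rw [show {s : Fin n → ℝ | ∀ i, 0 < s i} = ⋂ i, {s | 0 < s i} by ext; simp]
    exact MeasurableSet.iInter fun i => measurableSet_lt measurable_const (measurable_pi_apply i)
  have h2 : MeasurableSet {s : Fin n → ℝ | ∑ i, s i < 1} :=
    measurableSet_lt (Finset.measurable_sum _ fun i _ => measurable_pi_apply i) measurable_const
  exact h1.inter h2

theorem meas_TH (n : ℕ) : MeasurableSet (TH n) := by
  have h : TH n = ⋂ i, ({s : Fin n → ℝ | -Real.pi < s i} ∩ {s | s i < Real.pi}) := by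
    ext s
    simp [TH]
  rw [h]
  exact MeasurableSet.iInter fun i =>
    (measurableSet_lt measurable_const (measurable_pi_apply i)).inter
      (measurableSet_lt (measurable_pi_apply i) measurable_const)

theorem vol_SX (n : ℕ) : volume (SX n) ≤ ENNReal.ofReal (1 / n.factorial) := by
  have h := TS.vol_Sx n 1 zero_le_one
  rw [one_pow] at h
  rw [← h]
  exact measure_mono fun s hs => ⟨hs.1, hs.2.le⟩

theorem fin_TH (n : ℕ) : volume (TH n) ≠ ⊤ := by
  have h : TH n ⊆ Set.pi univ fun _ : Fin n => Icc (-Real.pi) Real.pi :=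
    fun s hs i _ => ⟨(hs i).1.le, (hs i).2.le⟩
  refine ne_top_of_le_ne_top ?_ (measure_mono h)
  exact (isCompact_univ_pi fun _ => isCompact_Icc).measure_lt_top.ne

/-- the product measure -/
def mu (n : ℕ) : Measure ((Fin n → ℝ) × (Fin n → ℝ)) :=
  (volume.restrict (SX n)).prod (volume.restrict (TH n))

instance fin_mu (n : ℕ) : IsFiniteMeasure (mu n) := by
  have h1 : IsFiniteMeasure ((volume : Measure (Fin n → ℝ)).restrict (SX n)) :=
    ⟨by rw [Measure.restrict_apply_univ]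
        exact (vol_SX n).trans_lt ENNReal.ofReal_lt_top⟩
  have h2 : IsFiniteMeasure ((volume : Measure (Fin n → ℝ)).restrict (TH n)) :=
    ⟨by rw [Measure.restrict_apply_univ]
        exact (fin_TH n).lt_top⟩
  unfold mu
  infer_instance

theorem ae_mu (n : ℕ) : ∀ᵐ x ∂(mu n), x.1 ∈ SX n := by
  unfold mu
  rw [Measure.prod_restrict]
  filter_upwards [ae_restrict_mem ((meas_SX n).prod (meas_TH n))] with x hx
  exact hx.1

/-- the admissible set, level `m` -/
def Sm (l : κ → Fin n → ℝ) (f : Fin n → κ) (m : ℕ) : Set ((Fin n → ℝ) × (Fin n → ℝ)) :=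
  {x | (fun i => cl (ag m (x.1 i) (x.2 i))) ∈ CP l f}

/-- the admissible set, limit -/
def Tm (l : κ → Fin n → ℝ) (f : Fin n → κ) : Set (Fin n → ℝ) := {θ | (fun i => bp (θ i)) ∈ CP l f}

theorem meas_Sm (hA : S_LA) (l : κ → Fin n → ℝ) (f : Fin n → κ) (m : ℕ) :
    MeasurableSet (Sm l f m) := by
  have h : Measurable fun x : (Fin n → ℝ) × (Fin n → ℝ) =>
      (fun i => cl (ag m (x.1 i) (x.2 i))) := by
    refine measurable_pi_lambda _ fun i => ?_
    have h1 : Measurable fun x : (Fin n → ℝ) × (Fin n → ℝ) => (x.1 i, x.2 i) :=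
      ((measurable_pi_apply i).comp measurable_fst).prodMk
        ((measurable_pi_apply i).comp measurable_snd)
    exact (meas_cl hA).comp ((meas_ag m).comp h1)
  exact h (closed_CP hA l f).measurableSet

theorem closed_Tm (hA : S_LA) (l : κ → Fin n → ℝ) (f : Fin n → κ) : IsClosed (Tm l f) :=
  (closed_CP hA l f).preimage (continuous_pi fun i => hA.2.2.2.2.1.comp (continuous_apply i))

theorem AA_eq {l : κ → Fin n → ℝ} {f : Fin n → κ} (hf : dt l f ≠ 0) :
    AA l f = Tm l f ∩ TH n := by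
  ext θ
  constructor
  · rintro ⟨h1, z, h2, h3⟩
    refine ⟨fun k => ?_, h1⟩
    rw [← eq_Zf hf h2]
    exact h3 k
  · rintro ⟨h1, h2⟩
    exact ⟨h2, Zf l f fun i => bp (θ i), pk_Zf hf _, h1⟩

theorem AM_sub (hC : S_LC) {l : κ → Fin n → ℝ} {f : Fin n → κ} (hf : dt l f ≠ 0) {m : ℕ}
    {s : Fin n → ℝ} (hs : s ∈ SX n) : AM l f m s ⊆ (Prod.mk s ⁻¹' Sm l f m) ∩ TH n := by
  rintro θ ⟨h1, z, h2, h3⟩
  refine ⟨?_, h1⟩
  change (fun i => cl (ag m (s i) (θ i))) ∈ CP l f
  have h4 : (fun i => cl (ag m (s i) (θ i))) = fun i => PT m (s i) (θ i) := by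
    funext i
    exact cl_ag (SX_lt hs i).1 (SX_lt hs i).2
  rw [h4]
  intro k
  rw [← eq_Zf hf h2]
  have h5 := hC.1 _ (h3 k)
  exact ⟨h5.1.le, h5.2⟩

theorem le_mu (hA : S_LA) (hC : S_LC) {l : κ → Fin n → ℝ} {f : Fin n → κ} (hf : dt l f ≠ 0)
    (m : ℕ) : ∫⁻ s in SX n, volume (AM l f m s) ≤ mu n (Sm l f m) := by
  unfold mu
  rw [Measure.prod_apply (meas_Sm hA l f m)]
  refine setLIntegral_mono' (meas_SX n) fun s hs => ?_
  exact (measure_mono (AM_sub hC hf hs)).trans (Measure.le_restrict_apply _ _)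

theorem lim_mu (hA : S_LA) (l : κ → Fin n → ℝ) (f : Fin n → κ) :
    Tendsto (fun m => mu n (Sm l f m ∪ Prod.snd ⁻¹' Tm l f)) atTop
      (𝓝 (mu n (Prod.snd ⁻¹' Tm l f))) := by
  have hT : MeasurableSet (Prod.snd ⁻¹' Tm l f : Set ((Fin n → ℝ) × (Fin n → ℝ))) :=
    measurable_snd (closed_Tm hA l f).measurableSet
  refine tendsto_measure_of_ae_tendsto_indicator_of_isFiniteMeasure atTop hT
    (fun m => (meas_Sm hA l f m).union hT) ?_
  filter_upwards [ae_mu n] with x hx
  by_cases h : x ∈ (Prod.snd ⁻¹' Tm l f : Set ((Fin n → ℝ) × (Fin n → ℝ)))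
  · exact Eventually.of_forall fun m => ⟨fun _ => h, fun _ => Or.inr h⟩
  · have h1 : (fun i => bp (x.2 i)) ∈ (CP l f)ᶜ := h
    have h2 : Tendsto (fun (m : ℕ) (i : Fin n) => cl (ag m (x.1 i) (x.2 i))) atTop
        (𝓝 fun i => bp (x.2 i)) := by
      refine tendsto_pi_nhds.2 fun i => ?_
      have h3 := lim_PT hA (θ := x.2 i) (SX_lt hx i).1 (SX_lt hx i).2
      refine h3.congr fun m => ?_
      exact (cl_ag (SX_lt hx i).1 (SX_lt hx i).2).symm
    filter_upwards [h2.eventually ((closed_CP hA l f).isOpen_compl.mem_nhds h1)] with m hm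
    exact ⟨fun h4 => h4.elim (fun h5 => absurd h5 hm) id, fun h4 => absurd h4 h⟩

theorem mu_T (hA : S_LA) {l : κ → Fin n → ℝ} {f : Fin n → κ} (hf : dt l f ≠ 0) :
    mu n (Prod.snd ⁻¹' Tm l f) = volume (SX n) * volume (AA l f) := by
  have h : (Prod.snd ⁻¹' Tm l f : Set ((Fin n → ℝ) × (Fin n → ℝ))) = univ ×ˢ Tm l f := by
    ext x
    simp
  unfold mu
  rw [h, Measure.prod_prod, Measure.restrict_apply_univ,
    Measure.restrict_apply (closed_Tm hA l f).measurableSet, AA_eq hf]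

end B2

open B2

theorem b2 (hA : S_LA) (hC : S_LC) (h : S_B1) : S_B2 := by
  classical
  intro κ _ r l hl
  have h1 : ∀ m : ℕ, 1 ≤ m → ENNReal.ofReal ((2 * Real.pi) ^ (r + 1)) ≤
      ∑ f : Fin (r + 1) → κ, if dt l f = 0 then 0 else
        mu (r + 1) (Sm l f m ∪ Prod.snd ⁻¹' Tm l f) := by
    intro m hm
    refine (h κ r l hl m hm).trans (Finset.sum_le_sum fun f _ => ?_)
    split_ifs with hf
    · exact le_rfl
    · exact (le_mu hA hC hf m).trans (measure_mono subset_union_left)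
  have h2 : Tendsto (fun m : ℕ => ∑ f : Fin (r + 1) → κ, if dt l f = 0 then 0 else
      mu (r + 1) (Sm l f m ∪ Prod.snd ⁻¹' Tm l f)) atTop
      (𝓝 (∑ f : Fin (r + 1) → κ, if dt l f = 0 then 0 else
        mu (r + 1) (Prod.snd ⁻¹' Tm l f))) := by
    refine tendsto_finsetSum _ fun f _ => ?_
    split_ifs with hf
    · exact tendsto_const_nhds
    · exact lim_mu hA l f
  have h3 : ENNReal.ofReal ((2 * Real.pi) ^ (r + 1)) ≤ ∑ f : Fin (r + 1) → κ,
      if dt l f = 0 then 0 else mu (r + 1) (Prod.snd ⁻¹' Tm l f) :=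
    ge_of_tendsto h2 ((eventually_ge_atTop 1).mono h1)
  have hN : (0 : ℝ) < (r + 1).factorial := by exact_mod_cast Nat.factorial_pos _
  have h4 : ENNReal.ofReal ((r + 1).factorial : ℝ) * ENNReal.ofReal (1 / (r + 1).factorial) = 1 := by
    rw [← ENNReal.ofReal_mul hN.le, mul_one_div_cancel hN.ne', ENNReal.ofReal_one]
  rw [ENNReal.ofReal_mul hN.le]
  refine (mul_le_mul_right h3 _).trans ?_
  rw [Finset.mul_sum]
  refine Finset.sum_le_sum fun f _ => ?_
  split_ifs with hf
  · rw [mul_zero]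
  · rw [mu_T hA hf, ← mul_assoc]
    calc ENNReal.ofReal ((r + 1).factorial : ℝ) * volume (SX (r + 1)) * volume (AA l f)
        ≤ ENNReal.ofReal ((r + 1).factorial : ℝ) * ENNReal.ofReal (1 / (r + 1).factorial) *
            volume (AA l f) := by
          gcongr
          exact vol_SX _
      _ = volume (AA l f) := by rw [h4, one_mul]

end Pool.Agent.K1H55.SK
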