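import Pool.Agent.K1H55.SK.Stm

/-!
# From the angles to the points: the skeleton inequality
-/

set_option autoImplicit false

noncomputable section

open MeasureTheory Filter Topology Set
open scoped BigOperators Matrix ENNReal

namespace Pool.Agent.K1H55.SK

open H712MA

namespace B3

/-- the linear part -/
def lin {n : ℕ} (A : Matrix (Fin n) (Fin n) ℝ) (ε : Fin n → Bool) : Matrix (Fin n) (Fin n) ℝ :=
  Matrix.diagonal (fun i => -(sg (ε i) * (Real.pi / 2))) * A

lemma abs_sg (e : Bool) : |sg e| = 1 := by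
  cases e <;> simp [sg]

lemma det_lin {n : ℕ} (A : Matrix (Fin n) (Fin n) ℝ) (ε : Fin n → Bool) :
    |(lin A ε).det| = (Real.pi / 2) ^ n * |A.det| := by
  have hπ : (0 : ℝ) ≤ Real.pi / 2 := by positivity
  unfold lin
  rw [Matrix.det_mul, Matrix.det_diagonal, abs_mul, Finset.abs_prod]
  congr 1
  rw [Finset.prod_congr rfl (g := fun _ => Real.pi / 2)]
  · rw [Finset.prod_const, Finset.card_univ, Fintype.card_fin]
  · intro i _
    rw [abs_neg, abs_mul, abs_sg, one_mul, abs_of_nonneg hπ]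

/-- the affine map `x ↦ (sg (ε_i) π (1 - l_(f i) x) / 2)_i` -/
def Phi {n : ℕ} (A : Matrix (Fin n) (Fin n) ℝ) (ε : Fin n → Bool) (x : Fin n → ℝ) : Fin n → ℝ :=
  (fun i => sg (ε i) * (Real.pi / 2)) + Matrix.toLin' (lin A ε) x

lemma Phi_apply {n : ℕ} (A : Matrix (Fin n) (Fin n) ℝ) (ε : Fin n → Bool) (x : Fin n → ℝ)
    (i : Fin n) : Phi A ε x i = sg (ε i) * (Real.pi * (1 - (A.mulVec x) i) / 2) := by
  unfold Phi lin
  rw [Pi.add_apply, Matrix.toLin'_apply, ← Matrix.mulVec_mulVec, Matrix.mulVec_diagonal]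
  ring

lemma vol_Phi {n : ℕ} (A : Matrix (Fin n) (Fin n) ℝ) (ε : Fin n → Bool) (S : Set (Fin n → ℝ)) :
    volume (Phi A ε '' S) = ENNReal.ofReal ((Real.pi / 2) ^ n * |A.det|) * volume S := by
  have h1 : Phi A ε '' S = (fun y => (fun i => sg (ε i) * (Real.pi / 2)) + y) ''
      (Matrix.toLin' (lin A ε) '' S) := by
    rw [Set.image_image]
    rfl
  rw [h1, Set.image_add_left, measure_preimage_add, Measure.addHaar_image_linearMap,
    LinearMap.det_toLin', det_lin]

lemma sub {κ : Type} {n : ℕ} (hA : S_LA) (l : κ → Fin n → ℝ) (f : Fin n → κ) :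
    AA l f ⊆ (⋃ ε : Fin n → Bool, Phi (Matrix.of fun i j => l (f i) j) ε '' XX l f ε) ∪
      ⋃ i : Fin n, {θ : Fin n → ℝ | θ i = 0} := by
  obtain ⟨-, h2, h3, -, -, -⟩ := hA
  rintro θ ⟨hθ, z, hz, hcl⟩
  by_cases h0 : ∃ i, θ i = 0
  · obtain ⟨i, hi⟩ := h0
    exact Or.inr (Set.mem_iUnion.2 ⟨i, hi⟩)
  · push Not at h0
    refine Or.inl (Set.mem_iUnion.2 ⟨fun i => decide (0 < θ i), z.1, ?_, ?_⟩)
    · refine ⟨fun k => (hcl k).1, z.2, fun i => ?_, fun k => (hcl k).2⟩
      have hre : l (f i) ⬝ᵥ z.1 = (bp (θ i)).re := congrArg Complex.re (hz i)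
      have him : l (f i) ⬝ᵥ z.2 = (bp (θ i)).im := congrArg Complex.im (hz i)
      have habs : |θ i| ≤ Real.pi := abs_le.2 ⟨(hθ i).1.le, (hθ i).2.le⟩
      rw [h2 _ habs] at hre
      have hb : bb (l (f i) ⬝ᵥ z.1) = (bp |θ i|).im := by
        unfold bb
        rw [hre]
        congr 2
        have := Real.pi_pos
        field_simp
        ring
      rw [hb, him]
      rcases lt_or_gt_of_ne (h0 i) with hneg | hpos
      · have : ¬ (0 < θ i) := not_lt.2 hneg.le
        simp only [this, decide_false, sg, Bool.false_eq_true, if_false]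
        rw [abs_of_neg hneg, h3]
        ring
      · simp only [hpos, decide_true, sg, if_true]
        rw [abs_of_pos hpos]
        ring
    · funext i
      rw [Phi_apply]
      have hre : l (f i) ⬝ᵥ z.1 = (bp (θ i)).re := congrArg Complex.re (hz i)
      have habs : |θ i| ≤ Real.pi := abs_le.2 ⟨(hθ i).1.le, (hθ i).2.le⟩
      rw [h2 _ habs] at hre
      have hmv : ((Matrix.of fun i j => l (f i) j).mulVec z.1) i = l (f i) ⬝ᵥ z.1 := rfl
      rw [hmv, hre]
      have := Real.pi_pos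
      rcases lt_or_gt_of_ne (h0 i) with hneg | hpos
      · have hn : ¬ (0 < θ i) := not_lt.2 hneg.le
        simp only [hn, decide_false, sg, Bool.false_eq_true, if_false]
        rw [abs_of_neg hneg]
        field_simp
        ring
      · simp only [hpos, decide_true, sg, if_true]
        rw [abs_of_pos hpos]
        field_simp
        ring

lemma vol_AA {κ : Type} {n : ℕ} (hA : S_LA) (l : κ → Fin n → ℝ) (f : Fin n → κ) :
    volume (AA l f) ≤ ∑ ε : Fin n → Bool,
      ENNReal.ofReal ((Real.pi / 2) ^ n) * (ENNReal.ofReal |dt l f| * volume (XX l f ε)) := by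
  refine (measure_mono (sub hA l f)).trans ((measure_union_le _ _).trans ?_)
  have h0 : volume (⋃ i : Fin n, {θ : Fin n → ℝ | θ i = 0}) = 0 := by
    rw [measure_iUnion_null_iff]
    intro i
    rw [volume_pi]
    exact Measure.pi_hyperplane _ i 0
  rw [h0, add_zero]
  refine (measure_iUnion_le _).trans (le_of_eq ?_)
  rw [tsum_fintype]
  refine Finset.sum_congr rfl fun ε _ => ?_
  rw [vol_Phi, ENNReal.ofReal_mul (by positivity), mul_assoc]
  rfl

end B3

open B3 in
theorem b3 (hA : S_LA) (h : S_B2) : S_SK := by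
  classical
  intro κ _ r l hl
  have h1 := h κ r l hl
  have hπ : (0 : ℝ) < (Real.pi / 2) ^ (r + 1) := by positivity
  have h2 : ENNReal.ofReal ((r + 1).factorial * (2 * Real.pi) ^ (r + 1)) =
      ENNReal.ofReal ((Real.pi / 2) ^ (r + 1)) *
        ENNReal.ofReal ((r + 1).factorial * 4 ^ (r + 1)) := by
    rw [← ENNReal.ofReal_mul hπ.le]
    congr 1
    have : (2 * Real.pi) ^ (r + 1) = (Real.pi / 2) ^ (r + 1) * 4 ^ (r + 1) := by
      rw [← mul_pow]; ring
    rw [this]
    ring
  rw [h2] at h1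
  have h3 : (∑ f : Fin (r + 1) → κ, if dt l f = 0 then 0 else volume (AA l f)) ≤
      ENNReal.ofReal ((Real.pi / 2) ^ (r + 1)) *
        ∑ f : Fin (r + 1) → κ, ∑ ε : Fin (r + 1) → Bool,
          if dt l f = 0 then 0 else ENNReal.ofReal |dt l f| * volume (XX l f ε) := by
    rw [Finset.mul_sum]
    refine Finset.sum_le_sum fun f _ => ?_
    by_cases hf : dt l f = 0
    · simp [hf]
    · simp only [hf, if_false]
      rw [Finset.mul_sum]
      exact vol_AA hA l f
  have h4 := h1.trans h3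
  have h5 : ENNReal.ofReal ((Real.pi / 2) ^ (r + 1)) ≠ 0 := by
    rw [Ne, ENNReal.ofReal_eq_zero, not_le]
    exact hπ
  exact (ENNReal.mul_le_mul_iff_right h5 ENNReal.ofReal_ne_top).1 h4

end Pool.Agent.K1H55.SK
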