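import Pool.Agent.K1H55.SK.B2

/-!
# SK-GEN: generic scalings have no ties
-/

set_option autoImplicit false

noncomputable section

open MeasureTheory Filter Topology Set
open scoped BigOperators Matrix ENNReal

namespace Pool.Agent.K1H55.SK

open H712MA

namespace GN

open B2

/-- a measurable set whose lines in the direction `k` have at most one point is null -/
theorem null_lines {N : ℕ} (k : Fin N) (D : Set (Fin N → ℝ)) (hD : MeasurableSet D)
    (h : ∀ τ ∈ D, ∀ τ' ∈ D, (∀ j, j ≠ k → τ j = τ' j) → τ = τ') : volume D = 0 := by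
  cases N with
  | zero => exact k.elim0
  | succ N =>
    have hmp := volume_preserving_piFinSuccAbove (fun _ : Fin (N + 1) => ℝ) k
    obtain ⟨e, he⟩ : ∃ e, e = MeasurableEquiv.piFinSuccAbove (fun _ : Fin (N + 1) => ℝ) k :=
      ⟨_, rfl⟩
    rw [← he] at hmp
    have hm : MeasurableSet (e.symm ⁻¹' D) := e.symm.measurable hD
    have h1 : D = e ⁻¹' (e.symm ⁻¹' D) := by
      ext τ
      simp
    rw [h1, hmp.measure_preimage hm.nullMeasurableSet, Measure.volume_eq_prod,
      Measure.prod_apply_symm hm, lintegral_eq_zero_iff' ?_]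
    · refine Eventually.of_forall fun y => ?_
      refine Set.Subsingleton.measure_zero ?_ _
      intro t ht t' ht'
      have h2 := h _ ht _ ht' (fun j hj => by
        obtain ⟨i, rfl⟩ := Fin.exists_succAbove_eq hj
        rw [he]
        change (Fin.insertNth k t y : Fin (N + 1) → ℝ) (k.succAbove i) =
          (Fin.insertNth k t' y : Fin (N + 1) → ℝ) (k.succAbove i)
        rw [Fin.insertNth_apply_succAbove, Fin.insertNth_apply_succAbove])
      have h3 := e.symm.injective h2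
      exact (Prod.ext_iff.1 h3).1
    · exact (measurable_measure_prodMk_right hm).aemeasurable

/-- the solution of the equations -/
def US {N n : ℕ} (l : Fin N → Fin n → ℝ) (f : Fin n → Fin N) (ε : Fin n → Bool)
    (τ : Fin N → ℝ) (x : Fin n → ℝ) : Fin n → ℝ :=
  (Am l f)⁻¹ *ᵥ (fun i => sg (ε i) * bb (τ (f i) * (l (f i) ⬝ᵥ x)) / τ (f i))

/-- the bad set -/
def Bad {N n : ℕ} (l : Fin N → Fin n → ℝ) (f : Fin n → Fin N) (ε : Fin n → Bool) (k : Fin N) :
    Set ((Fin N → ℝ) × (Fin n → ℝ)) :=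
  {p | 0 < p.1 k ∧ |p.1 k * (l k ⬝ᵥ p.2)| ≤ 1 ∧
    |p.1 k * (l k ⬝ᵥ US l f ε p.1 p.2)| = bb (p.1 k * (l k ⬝ᵥ p.2))}

theorem cont_dot {n : ℕ} (v : Fin n → ℝ) : Continuous fun x : Fin n → ℝ => v ⬝ᵥ x := by
  unfold dotProduct
  fun_prop

theorem meas_Bad (hA : S_LA) {N n : ℕ} (l : Fin N → Fin n → ℝ) (f : Fin n → Fin N)
    (ε : Fin n → Bool) (k : Fin N) : MeasurableSet (Bad l f ε k) := by
  have hbb : Measurable bb := hA.2.2.2.2.2.measurable
  have hτ : ∀ j, Measurable fun p : (Fin N → ℝ) × (Fin n → ℝ) => p.1 j := fun j =>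
    (measurable_pi_apply j).comp measurable_fst
  have hd : ∀ v : Fin n → ℝ, Measurable fun p : (Fin N → ℝ) × (Fin n → ℝ) => v ⬝ᵥ p.2 := fun v =>
    (cont_dot v).measurable.comp measurable_snd
  have hu : Measurable fun p : (Fin N → ℝ) × (Fin n → ℝ) => l k ⬝ᵥ US l f ε p.1 p.2 := by
    have h1 : Continuous fun v : Fin n → ℝ => l k ⬝ᵥ ((Am l f)⁻¹ *ᵥ v) :=
      (cont_dot (l k)).comp (Continuous.matrix_mulVec continuous_const continuous_id)
    have h2 : Measurable fun p : (Fin N → ℝ) × (Fin n → ℝ) =>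
        (fun i => sg (ε i) * bb (p.1 (f i) * (l (f i) ⬝ᵥ p.2)) / p.1 (f i)) := by
      refine measurable_pi_lambda _ fun i => ?_
      exact ((hbb.comp ((hτ (f i)).mul (hd (l (f i))))).const_mul _).div (hτ (f i))
    exact h1.measurable.comp h2
  refine (measurableSet_lt measurable_const (hτ k)).inter
    ((measurableSet_le (((hτ k).mul (hd (l k))).abs) measurable_const).inter
      (measurableSet_eq_fun (((hτ k).mul hu).abs) (hbb.comp ((hτ k).mul (hd (l k))))))

/-- at most one scaling -/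
theorem one_scale (hA : S_LA) (hB : S_LB) (hC : S_LC) {a b t t' : ℝ} (h0 : 0 < t) (htt : t < t')
    (h1 : |t * a| ≤ 1) (h1' : |t' * a| ≤ 1) (h2 : |t * b| = bb (t * a))
    (h2' : |t' * b| = bb (t' * a)) : False := by
  have h0' : 0 < t' := h0.trans htt
  have hev : ∀ s : ℝ, bb s = bb |s| := by
    intro s
    rcases le_total 0 s with h | h
    · rw [abs_of_nonneg h]
    · rw [abs_of_nonpos h, hA.2.2.2.1]
  have ha0 := abs_nonneg a
  have e1 : |t * a| = t * |a| := by rw [abs_mul, abs_of_pos h0]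
  have e1' : |t' * a| = t' * |a| := by rw [abs_mul, abs_of_pos h0']
  have e2 : |t * b| = t * |b| := by rw [abs_mul, abs_of_pos h0]
  have e2' : |t' * b| = t' * |b| := by rw [abs_mul, abs_of_pos h0']
  rw [hev (t * a), e1, e2] at h2
  rw [hev (t' * a), e1', e2'] at h2'
  rw [e1] at h1
  rw [e1'] at h1'
  have h3 : bb (t' * |a|) ≤ bb (t * |a|) :=
    hB ⟨by positivity, h1⟩ ⟨by positivity, h1'⟩ (mul_le_mul_of_nonneg_right htt.le ha0)
  rw [← h2, ← h2'] at h3
  have hb : |b| = 0 := by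
    have := abs_nonneg b
    nlinarith
  rw [hb, mul_zero] at h2
  have h4 : abs (t * |a|) < 1 := by
    rw [abs_of_nonneg (by positivity)]
    rcases ha0.eq_or_lt with h | h
    · rw [← h, mul_zero]
      exact one_pos
    · exact (mul_lt_mul_of_pos_right htt h).trans_le h1'
  have h5 := hC.2 _ h4
  linarith

theorem null_Bad (hA : S_LA) (hB : S_LB) (hC : S_LC) {N n : ℕ} (l : Fin N → Fin n → ℝ)
    (f : Fin n → Fin N) (ε : Fin n → Bool) (k : Fin N) (hk : ∀ i, k ≠ f i) :
    (volume : Measure ((Fin N → ℝ) × (Fin n → ℝ))) (Bad l f ε k) = 0 := by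
  have hm := meas_Bad hA l f ε k
  rw [Measure.volume_eq_prod, Measure.prod_apply_symm hm, lintegral_eq_zero_iff'
    (measurable_measure_prodMk_right hm).aemeasurable]
  refine Eventually.of_forall fun x => ?_
  refine null_lines k _ (measurable_prodMk_right hm) ?_
  intro τ hτ τ' hτ' h
  have hU : US l f ε τ x = US l f ε τ' x := by
    unfold US
    congr 1
    funext i
    rw [h (f i) (hk i).symm]
  obtain ⟨h0, h1, h2⟩ := hτ
  obtain ⟨h0', h1', h2'⟩ := hτ'
  dsimp only at h0 h1 h2 h0' h1' h2'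
  rw [← hU] at h2'
  have hkk : τ k = τ' k := by
    rcases lt_trichotomy (τ k) (τ' k) with h3 | h3 | h3
    · exact absurd (one_scale hA hB hC h0 h3 h1 h1' h2 h2') not_false
    · exact h3
    · exact absurd (one_scale hA hB hC h0' h3 h1' h1 h2' h2) not_false
  funext j
  by_cases hj : j = k
  · rw [hj, hkk]
  · exact h j hj

end GN

open B2 GN

theorem gen (hA : S_LA) (hB : S_LB) (hC : S_LC) : S_GEN := by
  classical
  intro N n l δ hδ
  have h1 : ∀ᵐ τ : Fin N → ℝ, ∀ (f : Fin n → Fin N) (ε : Fin n → Bool) (k : Fin N),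
      (∀ i, k ≠ f i) → ∀ᵐ x : Fin n → ℝ, (τ, x) ∉ Bad l f ε k := by
    rw [ae_all_iff]
    intro f
    rw [ae_all_iff]
    intro ε
    rw [ae_all_iff]
    intro k
    by_cases hk : ∀ i, k ≠ f i
    · have h2 := null_Bad hA hB hC l f ε k hk
      rw [Measure.volume_eq_prod] at h2
      have h3 : ∀ᵐ p ∂((volume : Measure (Fin N → ℝ)).prod (volume : Measure (Fin n → ℝ))),
          p ∉ Bad l f ε k := measure_eq_zero_iff_ae_notMem.1 h2
      filter_upwards [Measure.ae_ae_of_ae_prod h3] with τ hτ _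
      exact hτ
    · exact Eventually.of_forall fun τ h => absurd h hk
  have hopen : IsOpen (Set.pi univ fun _ : Fin N => Ioo (1 : ℝ) (1 + δ)) :=
    isOpen_set_pi finite_univ fun _ _ => isOpen_Ioo
  obtain ⟨τ, hτP, hτ⟩ := (Measure.dense_of_ae h1).inter_open_nonempty _ hopen
    ⟨fun _ => 1 + δ / 2, fun _ _ => ⟨by linarith, by linarith⟩⟩
  have hτ1 : ∀ k, 1 < τ k ∧ τ k < 1 + δ := fun k => hτP k (mem_univ k)
  refine ⟨τ, fun k => ⟨(hτ1 k).1.le, (hτ1 k).2.le⟩, fun f ε hf => ?_⟩
  have h2 : ∀ᵐ x : Fin n → ℝ, ∀ k : Fin N, (∀ i, k ≠ f i) → (τ, x) ∉ Bad l f ε k := by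
    rw [ae_all_iff]
    intro k
    by_cases hk : ∀ i, k ≠ f i
    · filter_upwards [hτ f ε k hk] with x hx _
      exact hx
    · exact Eventually.of_forall fun x h => absurd h hk
  filter_upwards [h2] with x hx hx1 u hu k hk h3
  have hu' : u = US l f ε τ x := by
    have hdet : IsUnit (Am l f).det := isUnit_iff_ne_zero.2 hf
    have h4 : Am l f *ᵥ u = fun i => sg (ε i) * bb (τ (f i) * (l (f i) ⬝ᵥ x)) / τ (f i) := by
      funext i
      have h5 := hu i
      rw [smul_dotProduct, smul_dotProduct, smul_eq_mul, smul_eq_mul] at h5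
      have h6 : 0 < τ (f i) := by linarith [(hτ1 (f i)).1]
      rw [eq_div_iff h6.ne', ← h5, mul_comm]
      rfl
    unfold US
    rw [← h4, Matrix.mulVec_mulVec, Matrix.nonsing_inv_mul _ hdet, Matrix.one_mulVec]
  apply hx k hk
  have h6 : 0 < τ k := by linarith [(hτ1 k).1]
  have h7 := hx1 k
  rw [smul_dotProduct, smul_eq_mul] at h7
  rw [smul_dotProduct, smul_dotProduct, smul_eq_mul, smul_eq_mul, hu'] at h3
  exact ⟨h6, h7, h3⟩

end Pool.Agent.K1H55.SK
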