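import Pool.Agent.K1H55.SK.Stm
import Pool.Agent.H712R2.MA.H1

set_option autoImplicit false

noncomputable section

open MeasureTheory Filter Topology Set
open scoped BigOperators Matrix ENNReal ComplexConjugate

namespace Pool.Agent.K1H55.SK

open H712MA

namespace LAaux

lemma summ : Summable fun j : ℕ => 1 / ((2 * j + 1 : ℕ) : ℝ) ^ 2 := by
  have h : Summable fun n : ℕ => 1 / (n : ℝ) ^ 2 := Real.summable_one_div_nat_pow.2 one_lt_two
  exact h.comp_injective (i := fun j : ℕ => 2 * j + 1) (fun a b hab => by simpa using hab)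

lemma term_norm (z : ℂ) (hz : ‖z‖ ≤ 1) (j : ℕ) :
    ‖z ^ (2 * j + 1) / ((2 * j + 1 : ℕ) : ℂ) ^ 2‖ ≤ 1 / ((2 * j + 1 : ℕ) : ℝ) ^ 2 := by
  rw [norm_div, norm_pow, norm_pow, Complex.norm_natCast]
  exact div_le_div_of_nonneg_right (pow_le_one₀ (norm_nonneg z) hz) (by positivity)

lemma contS0 : ContinuousOn H1aux.S0 (Metric.closedBall 0 1) := by
  unfold H1aux.S0
  refine continuousOn_tsum (u := fun j : ℕ => 1 / ((2 * j + 1 : ℕ) : ℝ) ^ 2) ?_ summ ?_
  · intro j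
    exact ((continuous_pow (2 * j + 1)).div_const _).continuousOn
  · intro j z hz
    exact term_norm z (by simpa using hz) j

lemma cont_hh : ContinuousOn hh (Metric.closedBall 0 1) := by
  have h : hh = fun z => (8 / (Real.pi : ℂ) ^ 2) * H1aux.S0 z := by
    funext z
    exact H1aux.hh_eq z
  rw [h]
  exact continuousOn_const.mul contS0

lemma hh_neg (z : ℂ) : hh (-z) = - hh z := by
  rw [H1aux.hh_eq, H1aux.hh_eq]
  unfold H1aux.S0
  rw [← mul_neg, ← tsum_neg]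
  congr 2
  funext j
  rw [Odd.neg_pow ⟨j, rfl⟩, neg_div]

lemma bp_neg (θ : ℝ) : bp (-θ) = conj (bp θ) := by
  unfold bp
  rw [← H1.2.2.1]
  congr 1
  rw [← Complex.exp_conj]
  congr 1
  simp

lemma bp_pi_sub (θ : ℝ) : bp (Real.pi - θ) = - conj (bp θ) := by
  unfold bp
  rw [← H1.2.2.1, ← hh_neg]
  congr 1
  rw [← Complex.exp_conj]
  have h1 : ((Real.pi - θ : ℝ) : ℂ) * Complex.I = Real.pi * Complex.I + -(θ * Complex.I) := by
    push_cast
    ring
  rw [h1, Complex.exp_add, Complex.exp_pi_mul_I]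
  simp

lemma cont_bp : Continuous bp := by
  have h := cont_hh
  unfold bp
  refine h.comp_continuous (by fun_prop) ?_
  intro θ
  rw [mem_closedBall_zero_iff, Complex.norm_exp_ofReal_mul_I]

lemma bern (x : ℝ) :
    (Polynomial.map (algebraMap ℚ ℝ) (Polynomial.bernoulli (2 * 1))).eval x = x ^ 2 - x + 1 / 6 := by
  simp [Polynomial.bernoulli, Finset.sum_range_succ, Polynomial.map_add, bernoulli_one,
    bernoulli_zero]
  norm_num [bernoulli_eq_bernoulli'_of_ne_one]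
  ring

lemma cosSum (x : ℝ) (hx : x ∈ Icc (0 : ℝ) 1) :
    HasSum (fun n : ℕ => 1 / (n : ℝ) ^ 2 * Real.cos (2 * Real.pi * n * x))
      (Real.pi ^ 2 * (x ^ 2 - x + 1 / 6)) := by
  have h := hasSum_one_div_nat_pow_mul_cos (k := 1) one_ne_zero hx
  rw [bern] at h
  have e : (-1 : ℝ) ^ (1 + 1) * (2 * Real.pi) ^ (2 * 1) / 2 / ((2 * 1).factorial : ℝ) *
      (x ^ 2 - x + 1 / 6) = Real.pi ^ 2 * (x ^ 2 - x + 1 / 6) := by
    have e2 : ((2 * 1).factorial : ℝ) = 2 := by norm_num [Nat.factorial]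
    rw [e2]
    ring
  rw [e] at h
  exact h

lemma oddSum (θ : ℝ) (h0 : 0 ≤ θ) (h1 : θ ≤ Real.pi) :
    ∑' j : ℕ, 1 / ((2 * j + 1 : ℕ) : ℝ) ^ 2 * Real.cos ((2 * j + 1 : ℕ) * θ) =
      Real.pi ^ 2 / 8 * (1 - 2 * θ / Real.pi) := by
  have hp := Real.pi_pos
  have hA := cosSum (θ / (2 * Real.pi)) ⟨by positivity, by
    rw [div_le_one (by positivity)]; linarith⟩
  have hB := cosSum (θ / Real.pi) ⟨by positivity, by rw [div_le_one hp]; exact h1⟩
  have hA' : HasSum (fun n : ℕ => 1 / (n : ℝ) ^ 2 * Real.cos (n * θ))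
      (Real.pi ^ 2 * ((θ / (2 * Real.pi)) ^ 2 - θ / (2 * Real.pi) + 1 / 6)) := by
    convert hA using 4
    field_simp
  have hE : HasSum (fun k : ℕ => 1 / ((2 * k : ℕ) : ℝ) ^ 2 * Real.cos ((2 * k : ℕ) * θ))
      (1 / 4 * (Real.pi ^ 2 * ((θ / Real.pi) ^ 2 - θ / Real.pi + 1 / 6))) := by
    have h := hB.mul_left (1 / 4 : ℝ)
    have e : (fun k : ℕ => 1 / ((2 * k : ℕ) : ℝ) ^ 2 * Real.cos ((2 * k : ℕ) * θ)) =
        fun k : ℕ => 1 / 4 * (1 / (k : ℝ) ^ 2 * Real.cos (2 * Real.pi * k * (θ / Real.pi))) := by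
      funext k
      have e1 : 2 * Real.pi * k * (θ / Real.pi) = (2 * k : ℕ) * θ := by
        push_cast
        field_simp
      rw [e1]
      push_cast
      rcases Nat.eq_zero_or_pos k with rfl | hk
      · simp
      · have : (k : ℝ) ≠ 0 := by positivity
        field_simp
        ring
    rw [e]
    exact h
  have hO : Summable (fun k : ℕ => 1 / ((2 * k + 1 : ℕ) : ℝ) ^ 2 *
      Real.cos ((2 * k + 1 : ℕ) * θ)) :=
    hA'.summable.comp_injective (i := fun j : ℕ => 2 * j + 1) (fun a b hab => by simpa using hab)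
  have h2 := tsum_even_add_odd (f := fun n : ℕ => 1 / (n : ℝ) ^ 2 * Real.cos (n * θ))
    hE.summable hO
  rw [hA'.tsum_eq, hE.tsum_eq] at h2
  have h3 : ∑' j : ℕ, 1 / ((2 * j + 1 : ℕ) : ℝ) ^ 2 * Real.cos ((2 * j + 1 : ℕ) * θ) =
      Real.pi ^ 2 * ((θ / (2 * Real.pi)) ^ 2 - θ / (2 * Real.pi) + 1 / 6) -
        1 / 4 * (Real.pi ^ 2 * ((θ / Real.pi) ^ 2 - θ / Real.pi + 1 / 6)) := by
    linarith
  rw [h3]
  field_simp
  ring

lemma summ_bp (θ : ℝ) : Summable fun j : ℕ =>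
    (Complex.exp ((θ : ℂ) * Complex.I)) ^ (2 * j + 1) / ((2 * j + 1 : ℕ) : ℂ) ^ 2 :=
  Summable.of_norm_bounded summ fun j => term_norm _ (by rw [Complex.norm_exp_ofReal_mul_I]) j

lemma re_nonneg' (θ : ℝ) (h0 : 0 ≤ θ) (h1 : θ ≤ Real.pi) :
    (bp θ).re = 1 - 2 * θ / Real.pi := by
  have hp := Real.pi_pos
  unfold bp
  rw [H1aux.hh_eq, H1aux.cst_eq, Complex.re_ofReal_mul]
  unfold H1aux.S0
  rw [Complex.re_tsum (summ_bp θ)]
  have e : (fun j : ℕ => ((Complex.exp ((θ : ℂ) * Complex.I)) ^ (2 * j + 1) /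
      ((2 * j + 1 : ℕ) : ℂ) ^ 2).re) =
      fun j : ℕ => 1 / ((2 * j + 1 : ℕ) : ℝ) ^ 2 * Real.cos ((2 * j + 1 : ℕ) * θ) := by
    funext j
    rw [← Complex.exp_nat_mul]
    have e1 : ((2 * j + 1 : ℕ) : ℂ) * ((θ : ℂ) * Complex.I) =
        (((2 * j + 1 : ℕ) * θ : ℝ) : ℂ) * Complex.I := by
      push_cast
      ring
    have e2 : (((2 * j + 1 : ℕ) : ℂ) ^ 2) = (((((2 * j + 1 : ℕ) : ℝ)) ^ 2 : ℝ) : ℂ) := by
      push_cast
      ring
    rw [e1, e2, Complex.div_ofReal_re, Complex.exp_ofReal_mul_I_re]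
    ring
  rw [e, oddSum θ h0 h1]
  field_simp

lemma re_bp (θ : ℝ) (h : |θ| ≤ Real.pi) : (bp θ).re = 1 - 2 * |θ| / Real.pi := by
  rcases le_total 0 θ with h0 | h0
  · rw [abs_of_nonneg h0] at h ⊢
    exact re_nonneg' θ h0 h
  · rw [abs_of_nonpos h0] at h ⊢
    have h2 := re_nonneg' (-θ) (by linarith) h
    rw [bp_neg, Complex.conj_re] at h2
    exact h2

lemma bb_neg (t : ℝ) : bb (-t) = bb t := by
  unfold bb
  have e : Real.pi * (1 - -t) / 2 = Real.pi - Real.pi * (1 - t) / 2 := by ring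
  rw [e, bp_pi_sub, Complex.neg_im, Complex.conj_im, neg_neg]

lemma cont_bb : Continuous bb := by
  unfold bb
  exact Complex.continuous_im.comp (cont_bp.comp (by fun_prop))

end LAaux

open LAaux in
/-- LA: the boundary of the lens -/
theorem la : S_LA :=
  ⟨cont_hh, re_bp, fun θ => by rw [bp_neg, Complex.conj_im], bb_neg, cont_bp, cont_bb⟩

end Pool.Agent.K1H55.SK
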