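import Pool.Agent.K1H55.SK.Stm
import Pool.Agent.H712R2.MA.H1
import Pool.Agent.H712R2.MA.H3

/-!
# Task (LB): monotonicity of the height of the lens

For `r < 1` the function `θ ↦ Im h(r e^{iθ})` has derivative `Re (z h'(z))`, `z = r e^{iθ}`, and
`z h'(z) = (4/π²) log((1+z)/(1-z))` has nonnegative real part when `Re z ≥ 0`. Let `r → 1`.
-/

set_option autoImplicit false

noncomputable section

open MeasureTheory Filter Topology Set
open scoped BigOperators Matrix ENNReal

namespace Pool.Agent.K1H55.SK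

open H712MA

namespace LBaux

lemma gg_re_nonneg {z : ℂ} (hz : ‖z‖ < 1) (hre : 0 ≤ z.re) : 0 ≤ (gg z).re := by
  rw [gg_eq hz]
  have : (4 / (Real.pi : ℂ) ^ 2) = ((4 / Real.pi ^ 2 : ℝ) : ℂ) := by push_cast; ring
  rw [this, Complex.re_ofReal_mul, Complex.log_re]
  apply mul_nonneg c_pos.le
  apply Real.log_nonneg
  unfold cay
  rw [norm_div, one_le_div (norm_pos_iff.mpr (sub_ne_zero_of_norm hz))]
  have h : ‖(1 : ℂ) - z‖ ^ 2 ≤ ‖(1 : ℂ) + z‖ ^ 2 := by
    rw [← Complex.normSq_eq_norm_sq, ← Complex.normSq_eq_norm_sq]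
    simp only [Complex.normSq_apply, Complex.add_re, Complex.one_re, Complex.sub_re,
      Complex.add_im, Complex.one_im, Complex.sub_im]
    nlinarith
  exact (pow_le_pow_iff_left₀ (norm_nonneg _) (norm_nonneg _) (by norm_num)).mp h

/-- the circle of radius `r` -/
def zz (r θ : ℝ) : ℂ := (r : ℂ) * Complex.exp ((θ : ℂ) * Complex.I)

lemma norm_zz {r : ℝ} (hr : 0 ≤ r) (θ : ℝ) : ‖zz r θ‖ = r := by
  unfold zz
  rw [norm_mul, Complex.norm_exp_ofReal_mul_I, mul_one, Complex.norm_real, Real.norm_of_nonneg hr]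

lemma zz_re (r θ : ℝ) : (zz r θ).re = r * Real.cos θ := by
  unfold zz
  rw [Complex.re_ofReal_mul, Complex.exp_ofReal_mul_I_re]

lemma zz_deriv (r θ : ℝ) : HasDerivAt (fun θ : ℝ => zz r θ) (zz r θ * Complex.I) θ := by
  unfold zz
  have h1 : HasDerivAt (fun θ : ℝ => ((θ : ℂ) * Complex.I)) (1 * Complex.I) θ :=
    (Complex.ofRealCLM.hasDerivAt (x := θ)).mul_const Complex.I
  have h2 := (h1.cexp).const_mul (r : ℂ)
  convert! h2 using 1
  ring

lemma v_deriv {r : ℝ} (h0 : 0 ≤ r) (h1 : r < 1) (θ : ℝ) :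
    HasDerivAt (fun θ : ℝ => (hh (zz r θ)).im) ((gg (zz r θ)).re) θ := by
  have hn : ‖zz r θ‖ < 1 := by rw [norm_zz h0]; exact h1
  have h := (H1.1 (zz r θ) hn).comp θ (zz_deriv r θ)
  have h' : HasDerivAt (fun θ : ℝ => hh (zz r θ)) (hd (zz r θ) * (zz r θ * Complex.I)) θ := h
  have h2 := (Complex.imCLM.hasFDerivAt (x := hh (zz r θ))).comp_hasDerivAt θ h'
  have h3 : HasDerivAt (fun θ : ℝ => (hh (zz r θ)).im)
      (Complex.imCLM (hd (zz r θ) * (zz r θ * Complex.I))) θ := h2
  convert! h3 using 1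
  unfold gg
  simp only [Complex.imCLM_apply, Complex.mul_im, Complex.mul_re, Complex.I_re, Complex.I_im]
  ring

lemma v_mono {r : ℝ} (h0 : 0 ≤ r) (h1 : r < 1) :
    MonotoneOn (fun θ : ℝ => (hh (zz r θ)).im) (Icc 0 (Real.pi / 2)) := by
  apply monotoneOn_of_deriv_nonneg (convex_Icc _ _)
  · exact fun θ _ => (v_deriv h0 h1 θ).continuousAt.continuousWithinAt
  · exact fun θ _ => (v_deriv h0 h1 θ).differentiableAt.differentiableWithinAt
  · intro θ hθ
    rw [interior_Icc] at hθ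
    rw [(v_deriv h0 h1 θ).deriv]
    apply gg_re_nonneg
    · rw [norm_zz h0]; exact h1
    · rw [zz_re]
      apply mul_nonneg h0
      apply Real.cos_nonneg_of_mem_Icc
      constructor
      · linarith [hθ.1, Real.pi_pos]
      · exact hθ.2.le

lemma v_tendsto (h : ContinuousOn hh (Metric.closedBall 0 1)) (θ : ℝ) :
    Tendsto (fun r : ℝ => (hh (zz r θ)).im) (𝓝[<] 1) (𝓝 ((bp θ).im)) := by
  apply (Complex.continuous_im.tendsto _).comp
  have hc : ContinuousWithinAt hh (Metric.closedBall 0 1) (Complex.exp ((θ : ℂ) * Complex.I)) := by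
    apply h
    rw [mem_closedBall_zero_iff, Complex.norm_exp_ofReal_mul_I]
  unfold bp
  apply hc.tendsto.comp
  rw [tendsto_nhdsWithin_iff]
  constructor
  · have : Continuous fun r : ℝ => zz r θ := by
      unfold zz
      fun_prop
    have h2 := this.tendsto 1
    have h3 : zz 1 θ = Complex.exp ((θ : ℂ) * Complex.I) := by
      unfold zz; simp
    rw [h3] at h2
    exact h2.mono_left nhdsWithin_le_nhds
  · have h4 : ∀ᶠ r : ℝ in 𝓝[<] 1, r ∈ Ioo (0 : ℝ) 1 := Ioo_mem_nhdsLT (by norm_num)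
    filter_upwards [h4] with r hr
    rw [mem_closedBall_zero_iff, norm_zz hr.1.le]
    exact hr.2.le

lemma bp_mono (h : ContinuousOn hh (Metric.closedBall 0 1)) :
    MonotoneOn (fun θ : ℝ => (bp θ).im) (Icc 0 (Real.pi / 2)) := by
  intro a ha b hb hab
  refine le_of_tendsto_of_tendsto (v_tendsto h a) (v_tendsto h b) ?_
  have h4 : ∀ᶠ r : ℝ in 𝓝[<] 1, r ∈ Ioo (0 : ℝ) 1 := Ioo_mem_nhdsLT (by norm_num)
  filter_upwards [h4] with r hr
  exact v_mono hr.1.le hr.2 ha hb hab

end LBaux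

/-- (LB) the height of the lens is antitone on `[0, 1]` -/
theorem lb (h : S_LA) : S_LB := by
  intro s hs t ht hst
  have hp := Real.pi_pos
  unfold bb
  apply LBaux.bp_mono h.1
  · constructor
    · apply div_nonneg _ (by norm_num)
      exact mul_nonneg hp.le (by linarith [ht.2])
    · have : Real.pi * (1 - t) ≤ Real.pi * 1 := mul_le_mul_of_nonneg_left (by linarith [ht.1]) hp.le
      linarith
  · constructor
    · apply div_nonneg _ (by norm_num)
      exact mul_nonneg hp.le (by linarith [hs.2])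
    · have : Real.pi * (1 - s) ≤ Real.pi * 1 := mul_le_mul_of_nonneg_left (by linarith [hs.1]) hp.le
      linarith
  · have : Real.pi * (1 - t) ≤ Real.pi * (1 - s) :=
      mul_le_mul_of_nonneg_left (by linarith) hp.le
    linarith

end Pool.Agent.K1H55.SK
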