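import Pool.Agent.K1H55.SK.Stm
import Pool.Agent.H712R2.MA.H1
import Pool.Agent.H712R2.MA.H2
import Pool.Agent.H712R2.MA.H3
import Pool.Agent.H712R2.MA.H4

/-!
# LC: the lens lies under its boundary curve
-/

set_option autoImplicit false

noncomputable section

open MeasureTheory Filter Topology Set
open scoped BigOperators Matrix ENNReal ComplexConjugate

namespace Pool.Agent.K1H55.SK

open H712MA

theorem lc (h : S_LA) : S_LC := by
  obtain ⟨hcont, hre, _, _, _, _⟩ := h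
  have h1 := H1
  have h2 := H2 h1
  have h4 := H4 h1 h2 H3
  have hopen : IsOpen WW := h2.1
  have hinv := h2.2.1
  have hnorm := h2.2.2.2.2.2.1
  have hconj := h1.2.2.1
  have hslice := h4.1
  have him := h4.2.2.1
  have hc2 : ∀ x : ℝ, Continuous fun t : ℝ => (⟨x, t⟩ : ℂ) := by
    intro x
    have : (fun t : ℝ => (⟨x, t⟩ : ℂ)) = fun t : ℝ => (x : ℂ) + (t : ℂ) * Complex.I := by
      funext t
      apply Complex.ext <;> simp
    rw [this]
    fun_prop
  have key : ∀ x y : ℝ, 0 ≤ y → (⟨x, y⟩ : ℂ) ∈ WW → y ≤ bb x := by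
    intro x y hy hxy
    set S : Set ℝ := {t | 0 ≤ t ∧ (⟨x, t⟩ : ℂ) ∈ WW} with hS
    have hyS : y ∈ S := ⟨hy, hxy⟩
    have hbd : BddAbove S := by
      refine ⟨1, fun t ht => ?_⟩
      have := hnorm _ ht.2
      have h3 := (Complex.abs_im_le_norm (⟨x, t⟩ : ℂ))
      simp only at h3
      exact (le_abs_self t).trans (h3.trans this.le)
    set B := sSup S with hB
    have hyB : y ≤ B := le_csSup hbd hyS
    have hlt : ∀ t, 0 ≤ t → t < B → (⟨x, t⟩ : ℂ) ∈ WW := by
      intro t ht0 htB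
      obtain ⟨t', ht', htt'⟩ := exists_lt_of_lt_csSup ⟨y, hyS⟩ htB
      refine (hslice x t' t ht'.2 ?_).1
      rw [abs_of_nonneg ht0, abs_of_nonneg ht'.1]
      exact htt'.le
    have hup : ∀ t, 0 ≤ t → (⟨x, t⟩ : ℂ) ∈ WW → ∃ t' ∈ S, t < t' := by
      intro t ht0 ht
      have hnh : (fun t : ℝ => (⟨x, t⟩ : ℂ)) ⁻¹' WW ∈ 𝓝 t :=
        ((hopen.preimage (hc2 x)).mem_nhds ht)
      obtain ⟨ε, hε, hsub⟩ := Metric.mem_nhds_iff.1 hnh
      refine ⟨t + ε / 2, ⟨by linarith, ?_⟩, by linarith⟩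
      apply hsub
      rw [Metric.mem_ball, Real.dist_eq]
      rw [show t + ε / 2 - t = ε / 2 by ring, abs_of_pos (by linarith)]
      linarith
    have hB0 : 0 < B := by
      obtain ⟨t', ht', h'⟩ := hup y hy hxy
      exact lt_of_lt_of_le (lt_of_le_of_lt hy h') (le_csSup hbd ht')
    have hBn : (⟨x, B⟩ : ℂ) ∉ WW := by
      intro hmem
      obtain ⟨t', ht', h'⟩ := hup B hB0.le hmem
      exact absurd (le_csSup hbd ht') (not_le.2 h')
    -- the compact image of the closed upper half disc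
    set D : Set ℂ := Metric.closedBall 0 1 ∩ {z : ℂ | 0 ≤ z.im} with hD
    have hDc : IsCompact D :=
      (isCompact_closedBall (0:ℂ) 1).inter_right (isClosed_le continuous_const Complex.continuous_im)
    have hKc : IsClosed (hh '' D) :=
      (hDc.image_of_continuousOn (hcont.mono inter_subset_left)).isClosed
    have hmemK : ∀ t ∈ Ioo 0 B, (⟨x, t⟩ : ℂ) ∈ hh '' D := by
      intro t ht
      have hW := hlt t ht.1.le ht.2
      obtain ⟨e1, e2⟩ := hinv _ hW
      refine ⟨eta ⟨x, t⟩, ⟨?_, ?_⟩, e2⟩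
      · rw [mem_closedBall_zero_iff]; exact e1.le
      · exact ((him x t hW).1 ht.1).le
    have hBK : (⟨x, B⟩ : ℂ) ∈ hh '' D := by
      have hcl : IsClosed ((fun t : ℝ => (⟨x, t⟩ : ℂ)) ⁻¹' (hh '' D)) := hKc.preimage (hc2 x)
      have hsub : Ioo 0 B ⊆ (fun t : ℝ => (⟨x, t⟩ : ℂ)) ⁻¹' (hh '' D) := hmemK
      have := hcl.closure_subset_iff.2 hsub
      rw [closure_Ioo hB0.ne] at this
      exact this ⟨hB0.le, le_rfl⟩
    obtain ⟨ζ, ⟨hζ1, hζ2⟩, hζ3⟩ := hBK
    rw [mem_closedBall_zero_iff] at hζ1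
    have hζn : ‖ζ‖ = 1 := by
      rcases hζ1.lt_or_eq with hlt' | heq
      · exact absurd ⟨ζ, mem_ball_zero_iff.2 hlt', hζ3⟩ hBn
      · exact heq
    have hexp : Complex.exp ((ζ.arg : ℂ) * Complex.I) = ζ := by
      have := Complex.norm_mul_exp_arg_mul_I ζ
      rw [hζn, Complex.ofReal_one, one_mul] at this
      exact this
    have harg0 : 0 ≤ ζ.arg := Complex.arg_nonneg_iff.2 hζ2
    have hargpi : |ζ.arg| ≤ Real.pi := Complex.abs_arg_le_pi ζ
    have hbp : bp ζ.arg = ⟨x, B⟩ := by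
      unfold bp
      rw [hexp, hζ3]
    have hr := hre ζ.arg hargpi
    rw [hbp, abs_of_nonneg harg0] at hr
    simp only at hr
    have hθ : Real.pi * (1 - x) / 2 = ζ.arg := by
      rw [hr]
      field_simp
      ring
    unfold bb
    rw [hθ, hbp]
    exact hyB
  have partA : ∀ p ∈ WW, |p.re| < 1 ∧ |p.im| ≤ bb p.re := by
    intro p hp
    refine ⟨lt_of_le_of_lt (Complex.abs_re_le_norm p) (hnorm p hp), ?_⟩
    apply key _ _ (abs_nonneg _)
    refine (hslice p.re p.im |p.im| ?_ (by rw [abs_abs])).1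
    exact hp
  refine ⟨partA, ?_⟩
  intro t ht
  rw [abs_lt] at ht
  have hcf : ContinuousOn (fun s : ℝ => (hh (s : ℂ)).re) (Icc (-1) 1) := by
    apply Complex.continuous_re.comp_continuousOn
    apply hcont.comp Complex.continuous_ofReal.continuousOn
    intro s hs
    rw [mem_closedBall_zero_iff, Complex.norm_real, Real.norm_eq_abs, abs_le]
    exact hs
  have e1 : (hh ((1 : ℝ) : ℂ)).re = 1 := by
    have := hre 0 (by simpa using Real.pi_pos.le)
    simpa [bp] using this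
  have e2 : (hh ((-1 : ℝ) : ℂ)).re = -1 := by
    have := hre Real.pi (by rw [abs_of_pos Real.pi_pos])
    unfold bp at this
    rw [Complex.exp_pi_mul_I, abs_of_pos Real.pi_pos, mul_div_assoc, div_self Real.pi_ne_zero] at this
    simp only [Complex.ofReal_neg, Complex.ofReal_one]
    rw [this]; norm_num
  have hivt := intermediate_value_Icc (show (-1:ℝ) ≤ 1 by norm_num) hcf
  have htm : t ∈ Icc ((hh ((-1 : ℝ) : ℂ)).re) ((hh ((1 : ℝ) : ℂ)).re) := by
    rw [e1, e2]; exact ⟨ht.1.le, ht.2.le⟩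
  obtain ⟨s, hs, hst⟩ := hivt htm
  simp only at hst
  have hs1 : s ≠ 1 := by rintro rfl; rw [e1] at hst; linarith
  have hs2 : s ≠ -1 := by rintro rfl; rw [e2] at hst; linarith
  have hsn : ‖(s : ℂ)‖ < 1 := by
    rw [Complex.norm_real, Real.norm_eq_abs, abs_lt]
    exact ⟨lt_of_le_of_ne hs.1 hs2.symm, lt_of_le_of_ne hs.2 hs1⟩
  have him0 : (hh (s : ℂ)).im = 0 := by
    have := hconj (s : ℂ)
    rw [Complex.conj_ofReal] at this
    exact Complex.conj_eq_iff_im.1 this.symm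
  have ht0 : (⟨t, 0⟩ : ℂ) ∈ WW := by
    refine ⟨(s : ℂ), mem_ball_zero_iff.2 hsn, ?_⟩
    apply Complex.ext
    · exact hst
    · exact him0
  have hnh : (fun y : ℝ => (⟨t, y⟩ : ℂ)) ⁻¹' WW ∈ 𝓝 (0:ℝ) := (hopen.preimage (hc2 t)).mem_nhds ht0
  obtain ⟨ε, hε, hsub⟩ := Metric.mem_nhds_iff.1 hnh
  have hmem : (⟨t, ε / 2⟩ : ℂ) ∈ WW := by
    apply hsub
    rw [Metric.mem_ball, Real.dist_eq, sub_zero, abs_of_pos (by linarith)]
    linarith
  exact lt_of_lt_of_le (by linarith) (key t (ε / 2) (by linarith) hmem)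

end Pool.Agent.K1H55.SK
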