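import Pool.Agent.K1H55.SK.Stm

/-!
# The normal cones of the vertices of one slice are disjoint
-/

set_option autoImplicit false

noncomputable section

open MeasureTheory Filter Topology Set
open scoped BigOperators Matrix ENNReal

namespace Pool.Agent.K1H55.SK

open H712MA

namespace RS

theorem sg_mul_self (e : Bool) : sg e * sg e = 1 := by
  cases e <;> simp [sg]

theorem abs_sg (e : Bool) : |sg e| = 1 := by
  cases e <;> simp [sg]

theorem sg_inj {e e' : Bool} (h : sg e = sg e') : e = e' := by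
  cases e <;> cases e' <;> simp [sg] at h ⊢ <;> norm_num at h

/-- the matrix of the map `c ↦ ∑ c_i sg (ε_i) l_(f i)` -/
def MM {N n : ℕ} (l : Fin N → Fin n → ℝ) (f : Fin n → Fin N) (ε : Fin n → Bool) :
    Matrix (Fin n) (Fin n) ℝ := Matrix.of fun j i => sg (ε i) * l (f i) j

/-- the map `c ↦ ∑ c_i sg (ε_i) l_(f i)` -/
def LL {N n : ℕ} (l : Fin N → Fin n → ℝ) (f : Fin n → Fin N) (ε : Fin n → Bool) :
    (Fin n → ℝ) →L[ℝ] (Fin n → ℝ) := LinearMap.toContinuousLinearMap (Matrix.toLin' (MM l f ε))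

theorem LL_apply {N n : ℕ} (l : Fin N → Fin n → ℝ) (f : Fin n → Fin N) (ε : Fin n → Bool)
    (c : Fin n → ℝ) : LL l f ε c = ∑ i, (c i * sg (ε i)) • l (f i) := by
  ext j
  simp only [LL, MM, LinearMap.coe_toContinuousLinearMap', Matrix.toLin'_apply, Matrix.mulVec,
    dotProduct, Matrix.of_apply, Finset.sum_apply, Pi.smul_apply, smul_eq_mul]
  exact Finset.sum_congr rfl fun i _ => by ring

theorem det_LL {N n : ℕ} (l : Fin N → Fin n → ℝ) (f : Fin n → Fin N) (ε : Fin n → Bool) :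
    |(LL l f ε).det| = |dt l f| := by
  have h1 : (LL l f ε).det = (MM l f ε).det := by
    unfold LL
    rw [ContinuousLinearMap.det, LinearMap.coe_toContinuousLinearMap, LinearMap.det_toLin']
  have h2 : MM l f ε = (Matrix.of fun i j => l (f i) j)ᵀ * Matrix.diagonal (fun i => sg (ε i)) := by
    ext j i
    rw [Matrix.mul_diagonal]
    simp [MM, mul_comm]
  rw [h1, h2, Matrix.det_mul, Matrix.det_transpose, Matrix.det_diagonal, abs_mul, Finset.abs_prod]
  simp only [abs_sg, Finset.prod_const_one, mul_one]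
  rfl

theorem isOpen_Cn (n : ℕ) : IsOpen (Cn n) := by
  have : Cn n = ⋂ i, {c : Fin n → ℝ | 0 < c i} := by
    ext c; simp [Cn]
  rw [this]
  exact isOpen_iInter_of_finite fun i => isOpen_lt continuous_const (continuous_apply i)

theorem injective_LL {N n : ℕ} (l : Fin N → Fin n → ℝ) (f : Fin n → Fin N) (ε : Fin n → Bool)
    (h : dt l f ≠ 0) : Function.Injective (LL l f ε) := by
  have h1 : (LL l f ε).det ≠ 0 := by
    intro h0
    have := det_LL l f ε
    rw [h0, abs_zero] at this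
    exact h (abs_eq_zero.1 this.symm)
  have h2 : (MM l f ε).det ≠ 0 := by
    intro h0
    apply h1
    unfold LL
    rw [ContinuousLinearMap.det, LinearMap.coe_toContinuousLinearMap, LinearMap.det_toLin']
    exact h0
  have h3 : IsUnit (MM l f ε) := (Matrix.isUnit_iff_isUnit_det _).2 (isUnit_iff_ne_zero.2 h2)
  intro a b hab
  have h4 : (MM l f ε) *ᵥ a = (MM l f ε) *ᵥ b := hab
  exact Matrix.mulVec_injective_of_isUnit h3 h4

theorem key_int {N n : ℕ} (l : Fin N → Fin n → ℝ) (f : Fin n → Fin N) (ε : Fin n → Bool)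
    (h : dt l f ≠ 0) (H : (Fin n → ℝ) → ℝ≥0∞) :
    ENNReal.ofReal |dt l f| * ∫⁻ c in Cn n, H (∑ i, (c i * sg (ε i)) • l (f i)) =
      ∫⁻ y in (LL l f ε) '' (Cn n), H y := by
  rw [lintegral_image_eq_lintegral_abs_det_fderiv_mul volume (isOpen_Cn n).measurableSet
    (fun c _ => (LL l f ε).hasFDerivAt.hasFDerivWithinAt) (injective_LL l f ε h).injOn]
  rw [det_LL, lintegral_const_mul']
  · simp only [LL_apply]
  · exact ENNReal.ofReal_ne_top

theorem meas_image {N n : ℕ} (l : Fin N → Fin n → ℝ) (f : Fin n → Fin N) (ε : Fin n → Bool)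
    (h : dt l f ≠ 0) : MeasurableSet ((LL l f ε) '' (Cn n)) :=
  (isOpen_Cn n).measurableSet.image_of_continuousOn_injOn (LL l f ε).continuous.continuousOn
    (injective_LL l f ε h).injOn

theorem f_inj {N n : ℕ} (l : Fin N → Fin n → ℝ) (f : Fin n → Fin N) (h : dt l f ≠ 0) :
    Function.Injective f := by
  intro i j hij
  by_contra hne
  apply h
  unfold dt
  apply Matrix.det_zero_of_row_eq hne
  ext k
  simp [hij]

theorem perm {N n : ℕ} (hC : S_LC) (l : Fin N → Fin n → ℝ) (x : Fin n → ℝ)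
    (hx : ∀ k, |l k ⬝ᵥ x| < 1) (hT : ∀ f ε, dt l f ≠ 0 → NTie l f ε x)
    (f f' : Fin n → Fin N) (ε ε' : Fin n → Bool) (hf : dt l f ≠ 0) (hf' : dt l f' ≠ 0)
    (hX : x ∈ XX l f ε) (hX' : x ∈ XX l f' ε') (y : Fin n → ℝ)
    (hy : y ∈ (LL l f ε) '' (Cn n)) (hy' : y ∈ (LL l f' ε') '' (Cn n)) :
    ∃ σ : Equiv.Perm (Fin n), f = f' ∘ σ ∧ ε = ε' ∘ σ := by
  obtain ⟨c, hc, hcy⟩ := hy
  obtain ⟨c', hc', hcy'⟩ := hy'
  obtain ⟨-, u, hu, hub⟩ := hX
  obtain ⟨-, u', hu', hub'⟩ := hX'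
  rw [LL_apply] at hcy hcy'
  have hb : ∀ k, 0 < bb (l k ⬝ᵥ x) := fun k => hC.2 _ (hx k)
  have hdot : ∀ (g : Fin n → Fin N) (e : Fin n → Bool) (d w : Fin n → ℝ),
      (∑ i, (d i * sg (e i)) • l (g i)) ⬝ᵥ w = ∑ i, d i * (sg (e i) * (l (g i) ⬝ᵥ w)) := by
    intro g e d w
    rw [sum_dotProduct]
    refine Finset.sum_congr rfl fun i _ => ?_
    rw [smul_dotProduct, smul_eq_mul]
    ring
  have hval : ∀ (g : Fin n → Fin N) (e : Fin n → Bool) (d w : Fin n → ℝ),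
      (∀ i, l (g i) ⬝ᵥ w = sg (e i) * bb (l (g i) ⬝ᵥ x)) →
      (∑ i, (d i * sg (e i)) • l (g i)) ⬝ᵥ w = ∑ i, d i * bb (l (g i) ⬝ᵥ x) := by
    intro g e d w hw
    rw [hdot]
    refine Finset.sum_congr rfl fun i _ => ?_
    rw [hw i, ← mul_assoc (sg (e i)), sg_mul_self, one_mul]
  have hle1 : ∀ (g : Fin n → Fin N) (e : Fin n → Bool) (w : Fin n → ℝ) (i : Fin n),
      (∀ k, |l k ⬝ᵥ w| ≤ bb (l k ⬝ᵥ x)) → sg (e i) * (l (g i) ⬝ᵥ w) ≤ bb (l (g i) ⬝ᵥ x) := by
    intro g e w i hw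
    refine (le_abs_self _).trans ?_
    rw [abs_mul, abs_sg, one_mul]
    exact hw _
  have hle : ∀ (g : Fin n → Fin N) (e : Fin n → Bool) (d w : Fin n → ℝ), (∀ i, 0 < d i) →
      (∀ k, |l k ⬝ᵥ w| ≤ bb (l k ⬝ᵥ x)) →
      (∑ i, (d i * sg (e i)) • l (g i)) ⬝ᵥ w ≤ ∑ i, d i * bb (l (g i) ⬝ᵥ x) := by
    intro g e d w hd hw
    rw [hdot]
    exact Finset.sum_le_sum fun i _ => mul_le_mul_of_nonneg_left (hle1 g e w i hw) (hd i).le
  have e1 : y ⬝ᵥ u = ∑ i, c i * bb (l (f i) ⬝ᵥ x) := by rw [← hcy]; exact hval f ε c u hu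
  have e2 : y ⬝ᵥ u' = ∑ i, c' i * bb (l (f' i) ⬝ᵥ x) := by rw [← hcy']; exact hval f' ε' c' u' hu'
  have e3 : y ⬝ᵥ u ≤ ∑ i, c' i * bb (l (f' i) ⬝ᵥ x) := by rw [← hcy']; exact hle f' ε' c' u hc' hub
  have e4 : y ⬝ᵥ u' = ∑ i, c i * (sg (ε i) * (l (f i) ⬝ᵥ u')) := by rw [← hcy]; exact hdot f ε c u'
  have e5 : ∑ i, c i * (bb (l (f i) ⬝ᵥ x) - sg (ε i) * (l (f i) ⬝ᵥ u')) ≤ 0 := by
    simp only [mul_sub, Finset.sum_sub_distrib]
    rw [← e4, ← e1, e2]
    linarith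
  have e6 : ∀ i ∈ Finset.univ, 0 ≤ c i * (bb (l (f i) ⬝ᵥ x) - sg (ε i) * (l (f i) ⬝ᵥ u')) := by
    intro i _
    exact mul_nonneg (hc i).le (sub_nonneg.2 (hle1 f ε u' i hub'))
  have e7 := (Finset.sum_eq_zero_iff_of_nonneg e6).1 (le_antisymm e5 (Finset.sum_nonneg e6))
  have e8 : ∀ i, l (f i) ⬝ᵥ u' = sg (ε i) * bb (l (f i) ⬝ᵥ x) := by
    intro i
    have h1 := e7 i (Finset.mem_univ i)
    rcases mul_eq_zero.1 h1 with h2 | h2
    · exact absurd h2 (hc i).ne'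
    · have h3 : bb (l (f i) ⬝ᵥ x) = sg (ε i) * (l (f i) ⬝ᵥ u') := by linarith
      rw [h3, ← mul_assoc, sg_mul_self, one_mul]
  have e9 : ∀ i, ∃ j, f i = f' j := by
    intro i
    by_contra! hne
    apply hT f' ε' hf' u' hu' (f i) hne
    rw [e8 i, abs_mul, abs_sg, one_mul, abs_of_pos (hb _)]
  choose s hs using e9
  have hinj : Function.Injective s := by
    intro i j hij
    apply f_inj l f hf
    rw [hs i, hs j, hij]
  refine ⟨Equiv.ofBijective s (Finite.injective_iff_bijective.1 hinj), ?_, ?_⟩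
  · funext i
    exact hs i
  · funext i
    have h1 := e8 i
    rw [hs i, hu' (s i)] at h1
    exact (sg_inj (mul_right_cancel₀ (hb _).ne' h1)).symm

end RS

open RS in
theorem rs (hC : S_LC) : S_RS := by
  intro N n l x hx hT H hH
  classical
  have h1 : ∀ (f : Fin n → Fin N) (ε : Fin n → Bool),
      (if dt l f = 0 ∨ x ∉ XX l f ε then 0 else
        ENNReal.ofReal |dt l f| * ∫⁻ c in Cn n, H (∑ i, (c i * sg (ε i)) • l (f i))) =
      ∫⁻ y, (if dt l f = 0 ∨ x ∉ XX l f ε then 0 else ((LL l f ε) '' (Cn n)).indicator H y) := by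
    intro f ε
    split_ifs with h
    · simp
    · push Not at h
      rw [lintegral_indicator (meas_image l f ε h.1)]
      exact key_int l f ε h.1 H
  have h2 : ∀ (f : Fin n → Fin N) (ε : Fin n → Bool), Measurable (fun y =>
      if dt l f = 0 ∨ x ∉ XX l f ε then 0 else ((LL l f ε) '' (Cn n)).indicator H y) := by
    intro f ε
    split_ifs with h
    · exact measurable_const
    · push Not at h
      exact hH.indicator (meas_image l f ε h.1)
  simp only [h1]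
  have h3 : ∑ f : Fin n → Fin N, ∑ ε : Fin n → Bool,
      ∫⁻ y, (if dt l f = 0 ∨ x ∉ XX l f ε then 0 else ((LL l f ε) '' (Cn n)).indicator H y) =
      ∫⁻ y, ∑ f : Fin n → Fin N, ∑ ε : Fin n → Bool,
        (if dt l f = 0 ∨ x ∉ XX l f ε then 0 else ((LL l f ε) '' (Cn n)).indicator H y) := by
    rw [lintegral_finsetSum _ (fun f _ => Finset.measurable_sum _ (fun ε _ => h2 f ε))]
    refine Finset.sum_congr rfl fun f _ => ?_
    rw [lintegral_finsetSum _ (fun ε _ => h2 f ε)]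
  rw [h3, ← lintegral_const_mul' _ _ (ENNReal.natCast_ne_top _)]
  apply lintegral_mono
  intro y
  show ∑ f : Fin n → Fin N, ∑ ε : Fin n → Bool,
        (if dt l f = 0 ∨ x ∉ XX l f ε then 0 else ((LL l f ε) '' (Cn n)).indicator H y) ≤
      (n.factorial : ℝ≥0∞) * H y
  rw [← Fintype.sum_prod_type' (f := fun (f : Fin n → Fin N) (ε : Fin n → Bool) =>
    (if dt l f = 0 ∨ x ∉ XX l f ε then 0 else ((LL l f ε) '' (Cn n)).indicator H y))]
  set Q : Finset ((Fin n → Fin N) × (Fin n → Bool)) := Finset.univ.filter (fun p =>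
    dt l p.1 ≠ 0 ∧ x ∈ XX l p.1 p.2 ∧ y ∈ (LL l p.1 p.2) '' (Cn n)) with hQ
  have h4 : ∑ p : (Fin n → Fin N) × (Fin n → Bool), (if dt l p.1 = 0 ∨ x ∉ XX l p.1 p.2 then 0 else
      ((LL l p.1 p.2) '' (Cn n)).indicator H y) = ∑ p ∈ Q, H y := by
    rw [hQ, Finset.sum_filter]
    refine Finset.sum_congr rfl fun p _ => ?_
    by_cases ha : dt l p.1 = 0
    · simp [ha]
    · by_cases hb : x ∈ XX l p.1 p.2
      · by_cases hc : y ∈ (LL l p.1 p.2) '' (Cn n)
        · rw [if_neg (by tauto), if_pos ⟨ha, hb, hc⟩, Set.indicator_of_mem hc]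
        · rw [if_neg (by tauto), if_neg (by tauto), Set.indicator_of_notMem hc]
      · rw [if_pos (Or.inr hb), if_neg (by tauto)]
  rw [h4, Finset.sum_const, nsmul_eq_mul]
  have h5 : Q.card ≤ n.factorial := by
    rcases Q.eq_empty_or_nonempty with h0 | ⟨p0, hp0⟩
    · rw [h0]; simp
    · have hsub : Q ⊆ (Finset.univ : Finset (Equiv.Perm (Fin n))).image
          (fun σ : Equiv.Perm (Fin n) => (p0.1 ∘ σ, p0.2 ∘ σ)) := by
        intro p hp
        rw [hQ, Finset.mem_filter] at hp hp0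
        obtain ⟨σ, hσ1, hσ2⟩ := perm hC l x hx hT p.1 p0.1 p.2 p0.2 hp.2.1 hp0.2.1 hp.2.2.1
          hp0.2.2.1 y hp.2.2.2 hp0.2.2.2
        rw [Finset.mem_image]
        exact ⟨σ, Finset.mem_univ _, Prod.ext hσ1.symm hσ2.symm⟩
      refine (Finset.card_le_card hsub).trans (Finset.card_image_le.trans ?_)
      rw [Finset.card_univ, Fintype.card_perm, Fintype.card_fin]
  exact mul_le_mul_left (by exact_mod_cast h5) _

end Pool.Agent.K1H55.SK
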